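import Pool.Agent.H152R2.Ring

/-!
Planar difference sets in finite abelian groups: Hall's multiplier theorem and consequences.
-/

namespace Pool.Agent.H152R2

open Finset

variable {G : Type*} [AddCommGroup G]

lemma cf_mul_e (k h : G) (x : AddMonoidAlgebra ℤ G) : cf k (x * e h) = cf (k - h) x := by
  classical
  induction x using AddMonoidAlgebra.induction_on with
  | of g =>
    change cf k (e g * e h) = cf (k - h) (e g)
    rw [e_mul, cf_e, cf_e]
    simp [eq_sub_iff_add_eq]
  | add x y hx hy => rw [add_mul, map_add, map_add, hx, hy]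
  | smul r x hx =>
    rw [smul_mul_assoc, map_zsmul, map_zsmul, hx]

lemma cf_mul_F (k : G) (x : AddMonoidAlgebra ℤ G) (D : Finset G) (a : ℤ) :
    cf k (x * F D a) = ∑ d ∈ D, cf (k - a • d) x := by
  rw [F, Finset.mul_sum, map_sum]
  exact Finset.sum_congr rfl fun d _ => cf_mul_e _ _ _

lemma cf_F [DecidableEq G] (k : G) (D : Finset G) (a : ℤ) :
    cf k (F D a) = #{d ∈ D | a • d = k} := by
  rw [F, map_sum, Finset.card_filter]
  push_cast
  exact Finset.sum_congr rfl fun d _ => cf_e _ _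

/-- `D` is a planar difference set of order `n` in the finite abelian group `G`. -/
structure IsPDS (n : ℕ) (D : Finset G) : Prop where
  card_group : Nat.card G = n ^ 2 + n + 1
  card : #D = n + 1
  diff : ∀ g : G, g ≠ 0 → ∃! q : G × G, q.1 ∈ D ∧ q.2 ∈ D ∧ q.1 - q.2 = g

namespace IsPDS

variable {n : ℕ} {D : Finset G}

lemma uniq (h : IsPDS n D) {x y x' y' : G} (hx : x ∈ D) (hy : y ∈ D) (hx' : x' ∈ D) (hy' : y' ∈ D)
    (he : x - y = x' - y') (hne : x ≠ y) : x = x' ∧ y = y' := by
  have h1 := (h.diff (x - y) (sub_ne_zero.2 hne)).unique (y₁ := (x, y)) (y₂ := (x', y'))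
    ⟨hx, hy, rfl⟩ ⟨hx', hy', he.symm⟩
  simpa using h1

lemma finite (h : IsPDS n D) : Finite G := by
  apply Nat.finite_of_card_ne_zero
  rw [h.card_group]; positivity

lemma N_neg [DecidableEq G] (h : IsPDS n D) (g : G) :
    N D 1 (-1) g = if g = 0 then n + 1 else 1 := by
  split_ifs with hg
  · subst hg
    rw [N, ← h.card]
    symm
    apply Finset.card_bij (fun d _ => (d, d))
    · intro d hd; simp [hd]
    · intro a _ b _ hab; simpa using hab
    · rintro ⟨a, b⟩ hab
      simp only [mem_filter, mem_product, one_smul, neg_smul, add_neg_eq_zero] at hab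
      obtain ⟨⟨ha, _⟩, hb⟩ := hab
      exact ⟨a, ha, by simp [hb]⟩
  · obtain ⟨q, ⟨h1, h2, h3⟩, hq⟩ := h.diff g hg
    rw [N, Finset.card_eq_one]
    refine ⟨q, ?_⟩
    ext q'
    simp only [mem_filter, mem_product, one_smul, neg_smul, mem_singleton]
    constructor
    · rintro ⟨⟨h4, h5⟩, h6⟩
      exact hq q' ⟨h4, h5, by rw [← h6]; abel⟩
    · rintro rfl
      exact ⟨⟨h1, h2⟩, by rw [← h3]; abel⟩

lemma mul_neg_self [Fintype G] (h : IsPDS n D) :
    F D 1 * F D (-1) = ((n : ℤ) : AddMonoidAlgebra ℤ G) + J := by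
  classical
  apply ext_cf
  intro g
  rw [cf_mul, h.N_neg, map_add, cf_J]
  have : cf g (((n : ℤ) : AddMonoidAlgebra ℤ G)) = if g = 0 then (n : ℤ) else 0 := by
    have h1 := cf_zsmul g n (e (0 : G))
    rw [e_zero, mul_one] at h1
    rw [h1, ← e_zero, cf_e]
    by_cases hg : g = 0
    · simp [hg]
    · simp [hg, Ne.symm hg]
  rw [this]
  split_ifs <;> push_cast <;> ring

lemma coprime_card (n : ℕ) : Nat.Coprime (n + 1) (n ^ 2 + n + 1) := by
  have : n ^ 2 + n + 1 = 1 + (n + 1) * n := by ring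
  rw [this]
  simp

lemma coprime_card' (n : ℕ) : Nat.Coprime n (n ^ 2 + n + 1) := by
  have : n ^ 2 + n + 1 = 1 + n * (n + 1) := by ring
  rw [this]
  simp

lemma smul_inj_of_coprime (h : IsPDS n D) {k : ℕ} (hk : Nat.Coprime k (n ^ 2 + n + 1)) {x : G}
    (hx : k • x = 0) : x = 0 := by
  have h1 : addOrderOf x ∣ k := addOrderOf_dvd_of_nsmul_eq_zero hx
  have h2 : addOrderOf x ∣ n ^ 2 + n + 1 := by
    rw [← h.card_group]; exact addOrderOf_dvd_natCard x
  have h3 : addOrderOf x = 1 := Nat.eq_one_of_dvd_coprimes hk h1 h2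
  exact AddMonoid.addOrderOf_eq_one_iff.1 h3

/-- **Hall's multiplier theorem** for planar abelian difference sets. -/
lemma multiplier (h : IsPDS n D) {r : ℕ} (hr : r.Prime) (hrn : r ∣ n) (hn : 0 < n) :
    ∃ s : G, ∀ x ∈ D, ∃ d ∈ D, r • x = s + d := by
  classical
  have := h.finite
  have := Fintype.ofFinite G
  have hv : Fintype.card G = n ^ 2 + n + 1 := by rw [← Nat.card_eq_fintype_card, h.card_group]
  obtain ⟨k, hk⟩ := hrn
  -- congruence modulo r
  have hcong : ∃ z, F D r * F D (-1) = J + ((r : ℤ) : AddMonoidAlgebra ℤ G) * z := by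
    obtain ⟨z, hz⟩ := F_pow_prime hr D 1
    rw [one_mul] at hz
    have hr1 : r = (r - 1) + 1 := by have := hr.one_lt; omega
    have h1 : F D 1 ^ r * F D (-1) = F D 1 ^ (r - 1) * (((n : ℤ) : AddMonoidAlgebra ℤ G) + J) := by
      rw [← h.mul_neg_self, ← mul_assoc, ← pow_succ, ← hr1]
    have h2 : ∀ j : ℕ, F D 1 ^ j * J = (((n : ℤ) + 1) ^ j : AddMonoidAlgebra ℤ G) * J := by
      intro j
      induction j with
      | zero => simp
      | succ j ih =>
        have : F D 1 ^ (j + 1) * J = F D 1 ^ j * J * F D 1 := by ring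
        rw [this, ih, mul_assoc, mul_comm J, F_mul_J, h.card]
        push_cast
        ring
    have h3 : ∃ w : ℤ, ((n : ℤ) + 1) ^ (r - 1) = 1 + r * w := by
      have : ((r : ℤ)) ∣ ((n : ℤ) + 1) ^ (r - 1) - 1 := by
        have h4 : ((n : ℤ) + 1) ≡ 1 [ZMOD r] := by
          apply Int.ModEq.symm
          rw [Int.modEq_iff_dvd]
          exact ⟨k, by rw [hk]; push_cast; ring⟩
        have h5 := (h4.pow (r - 1)).symm
        rw [one_pow, Int.modEq_iff_dvd] at h5
        exact h5
      obtain ⟨w, hw⟩ := this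
      exact ⟨w, by linarith⟩
    obtain ⟨w, hw⟩ := h3
    refine ⟨F D 1 ^ (r - 1) * (k : AddMonoidAlgebra ℤ G) + (w : AddMonoidAlgebra ℤ G) * J - z * F D (-1), ?_⟩
    have h6 : F D (r : ℤ) = F D 1 ^ r - ((r : ℤ) : AddMonoidAlgebra ℤ G) * z := by rw [hz]; ring
    rw [h6, sub_mul, h1, mul_add, h2]
    have h7 : (((n : ℤ) + 1) ^ (r - 1) : AddMonoidAlgebra ℤ G) = 1 + (r : AddMonoidAlgebra ℤ G) * (w : AddMonoidAlgebra ℤ G) := by
      have := congrArg (fun t : ℤ => (t : AddMonoidAlgebra ℤ G)) hw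
      push_cast at this
      push_cast
      exact this
    rw [h7, hk]
    push_cast
    ring
  obtain ⟨z, hz⟩ := hcong
  -- the coefficients are at least one
  have hge : ∀ g, (1 : ℤ) ≤ N D r (-1) g := by
    intro g
    have h1 := congrArg (cf g) hz
    rw [cf_mul, map_add, cf_J, cf_zsmul] at h1
    have h2 : (0 : ℤ) ≤ N D r (-1) g := by positivity
    have hr2 : (2 : ℤ) ≤ r := by exact_mod_cast hr.two_le
    by_contra hcon
    push Not at hcon
    have h3 : (N D r (-1) g : ℤ) = 0 := by omega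
    rw [h3] at h1
    have h4 : (r : ℤ) * cf g z = -1 := by linarith
    have h5 : (r : ℤ) ∣ 1 := ⟨- cf g z, by linarith⟩
    have := Int.le_of_dvd one_pos h5
    omega
  -- there is a coefficient at least two
  have hex : ∃ s, (2 : ℤ) ≤ N D r (-1) s := by
    by_contra hcon
    push Not at hcon
    have h1 : ∀ g, N D r (-1) g = 1 := by
      intro g; have := hge g; have := hcon g; omega
    have h2 : ∑ g : G, N D r (-1) g = #(D ×ˢ D) := by
      symm
      exact Finset.card_eq_sum_card_fiberwise (fun _ _ => Finset.mem_coe.2 (Finset.mem_univ _))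
    simp_rw [h1] at h2
    rw [Finset.card_product, h.card] at h2
    simp only [sum_const, card_univ, smul_eq_mul, mul_one] at h2
    rw [hv] at h2
    nlinarith
  obtain ⟨s, hs⟩ := hex
  -- F * D = n D^(r)
  have hmain : (F D r * F D (-1) - J) * F D 1 = ((n : ℤ) : AddMonoidAlgebra ℤ G) * F D r := by
    rw [sub_mul, mul_assoc, mul_comm (F D (-1)), h.mul_neg_self, mul_add, F_mul_J, mul_comm J, F_mul_J]
    ring
  have hstep : ∀ d ∈ D, ∃ x ∈ D, r • x = s + d := by
    intro d hd
    have h1 := congrArg (cf (s + d)) hmain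
    rw [cf_mul_F, cf_zsmul, cf_F] at h1
    have h2 : (0 : ℤ) < ∑ x ∈ D, cf (s + d - (1 : ℤ) • x) (F D r * F D (-1) - J) := by
      apply Finset.sum_pos'
      · intro x _
        rw [map_sub, cf_mul, cf_J]
        have := hge (s + d - (1 : ℤ) • x)
        linarith
      · refine ⟨d, hd, ?_⟩
        rw [map_sub, cf_mul, cf_J]
        have : s + d - (1 : ℤ) • d = s := by simp
        rw [this]
        linarith
    rw [h1] at h2
    have h3 : (0 : ℤ) < #{x ∈ D | (r : ℤ) • x = s + d} := by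
      by_contra hcon
      have : (#{x ∈ D | (r : ℤ) • x = s + d} : ℤ) = 0 := by
        have : (0 : ℤ) ≤ #{x ∈ D | (r : ℤ) • x = s + d} := by positivity
        omega
      rw [this] at h2
      simp at h2
    have h4 : 0 < #{x ∈ D | (r : ℤ) • x = s + d} := by exact_mod_cast h3
    obtain ⟨x, hx⟩ := Finset.card_pos.1 h4
    rw [mem_filter, natCast_zsmul] at hx
    exact ⟨x, hx.1, hx.2⟩
  choose! φ hφ1 hφ2 using hstep
  refine ⟨s, ?_⟩
  have hinj : Set.InjOn φ D := by
    intro a ha b hb hab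
    have h1 := hφ2 a ha
    have h2 := hφ2 b hb
    rw [hab, h2] at h1
    exact (add_left_cancel h1).symm
  have hsurj : Set.SurjOn φ D D := Finset.surjOn_of_injOn_of_card_le φ hφ1 hinj le_rfl
  intro x hx
  obtain ⟨d, hd, hdx⟩ := hsurj hx
  exact ⟨d, hd, by rw [← hdx]; exact hφ2 d hd⟩

/-- A normalised planar difference set is fixed by every prime divisor of `n`. -/
lemma prime_smul_mem (h : IsPDS n D) (h0 : ∑ d ∈ D, d = 0) (hn : 0 < n) {r : ℕ} (hr : r.Prime)
    (hrn : r ∣ n) {x : G} (hx : x ∈ D) : r • x ∈ D := by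
  classical
  obtain ⟨s, hs⟩ := h.multiplier hr hrn hn
  choose! φ hφ1 hφ2 using hs
  have hcop : Nat.Coprime r (n ^ 2 + n + 1) := Nat.Coprime.coprime_dvd_left hrn (coprime_card' n)
  have hinj : Set.InjOn φ D := by
    intro a ha b hb hab
    have h1 := hφ2 a ha
    have h2 := hφ2 b hb
    rw [hab, ← h2] at h1
    have h3 : r • (a - b) = 0 := by rw [smul_sub, h1, sub_self]
    exact sub_eq_zero.1 (h.smul_inj_of_coprime hcop h3)
  have hsurj : Set.SurjOn φ D D := Finset.surjOn_of_injOn_of_card_le φ hφ1 hinj le_rfl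
  have h1 : ∑ x ∈ D, r • x = ∑ x ∈ D, (s + φ x) := Finset.sum_congr rfl hφ2
  have h2 : ∑ x ∈ D, φ x = ∑ x ∈ D, x := by
    apply Finset.sum_bij (fun x _ => φ x) hφ1 (fun a ha b hb hab => hinj ha hb hab)
    · intro b hb
      obtain ⟨a, ha, hab⟩ := hsurj hb
      exact ⟨a, ha, hab⟩
    · intro a _; rfl
  rw [Finset.sum_add_distrib, h2, ← Finset.smul_sum, h0, smul_zero, add_zero, Finset.sum_const,
    h.card] at h1
  have h3 : s = 0 := h.smul_inj_of_coprime (coprime_card n) h1.symm
  rw [hφ2 x hx, h3, zero_add]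
  exact hφ1 x hx

/-- A normalised planar difference set is fixed by every product of prime divisors of `n`. -/
lemma smul_mem (h : IsPDS n D) (h0 : ∑ d ∈ D, d = 0) (hn : 0 < n) {t : ℕ} (ht : t ≠ 0)
    (htn : ∀ r, r.Prime → r ∣ t → r ∣ n) {x : G} (hx : x ∈ D) : t • x ∈ D := by
  induction t using Nat.recOnMul generalizing x with
  | zero => exact absurd rfl ht
  | one => simpa using hx
  | prime p hp => exact h.prime_smul_mem h0 hn hp (htn p hp dvd_rfl) hx
  | mul a b iha ihb =>
    have ha : a ≠ 0 := by rintro rfl; simp at ht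
    have hb : b ≠ 0 := by rintro rfl; simp at ht
    rw [mul_smul]
    exact iha ha (fun r hr hra => htn r hr (hra.mul_right b))
      (ihb hb (fun r hr hrb => htn r hr (hrb.mul_left a)) hx)

/-- Every planar difference set has a normalised translate. -/
lemma exists_normalised (h : IsPDS n D) : ∃ D' : Finset G, IsPDS n D' ∧ ∑ d ∈ D', d = 0 := by
  classical
  have := h.finite
  have hinj : Function.Injective (fun s : G => (n + 1) • s) := by
    intro a b hab
    have h3 : (n + 1) • (a - b) = 0 := by rw [smul_sub]; exact sub_eq_zero.2 hab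
    exact sub_eq_zero.1 (h.smul_inj_of_coprime (coprime_card n) h3)
  obtain ⟨s, hs⟩ := (Finite.injective_iff_surjective.1 hinj) (- ∑ d ∈ D, d)
  refine ⟨D.map (Equiv.addRight s).toEmbedding, ⟨h.card_group, by rw [card_map, h.card], ?_⟩, ?_⟩
  · intro g hg
    obtain ⟨q, ⟨h1, h2, h3⟩, hq⟩ := h.diff g hg
    refine ⟨(q.1 + s, q.2 + s), ⟨?_, ?_, ?_⟩, ?_⟩
    · simpa using h1
    · simpa using h2
    · simpa using h3
    · rintro ⟨a, b⟩ ⟨ha, hb, hab⟩
      simp only [mem_map, Equiv.coe_toEmbedding, Equiv.coe_addRight] at ha hb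
      obtain ⟨a', ha', rfl⟩ := ha
      obtain ⟨b', hb', rfl⟩ := hb
      have := hq (a', b') ⟨ha', hb', by rw [← hab]; simp⟩
      rw [← this]
  · rw [Finset.sum_map]
    simp only [Equiv.coe_toEmbedding, Equiv.coe_addRight]
    rw [Finset.sum_add_distrib, Finset.sum_const, h.card]
    simp only at hs
    rw [hs, add_neg_cancel]

end IsPDS

end Pool.Agent.H152R2
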