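import Pool.Agent.H152R2.Planar

/-!
Planar abelian difference sets: Wilbrink's theorem for the prime 3, a parity lemma for odd order,
and two relations between multipliers which cannot hold.
-/

namespace Pool.Agent.H152R2

open Finset

lemma wil_alg {A : Type*} [CommRing A] (a b J x y κ : A) (hab : a * b = 3 * κ + J)
    (haJ : a * J = (3 * κ + 1) * J) (hbJ : b * J = (3 * κ + 1) * J)
    (hJJ : J * J = ((3 * κ) ^ 2 + 3 * κ + 1) * J) (ha3 : a ^ 3 = a + 3 * x)
    (hb3 : b ^ 3 = b + 3 * y) :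
    ∃ Y W V : A, a ^ 2 + b ^ 2 - 1 - J = Y ∧ Y * Y = 3 * W - Y ∧ 3 * (κ * (Y * Y)) = 3 * (3 * V) := by
  obtain ⟨Y, hY⟩ : ∃ Y, Y = a ^ 2 + b ^ 2 - 1 - J := ⟨_, rfl⟩
  have haY : a * Y = 3 * (x + κ * b) := by
    have : a * Y = a ^ 3 + b * (a * b) - a - a * J := by rw [hY]; ring
    rw [this, ha3, hab, haJ, mul_add, hbJ]
    ring
  have hbY : b * Y = 3 * (y + κ * a) := by
    have : b * Y = b ^ 3 + a * (a * b) - b - b * J := by rw [hY]; ring
    rw [this, hb3, hab, hbJ, mul_add, haJ]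
    ring
  have hJY : J * Y = 9 * (κ * (κ + 1) * J) := by
    have : J * Y = a * (a * J) + b * (b * J) - J - J * J := by rw [hY]; ring
    rw [this, haJ, hbJ, hJJ]
    have h5 : a * ((3 * κ + 1) * J) = (3 * κ + 1) * (a * J) := by ring
    have h6 : b * ((3 * κ + 1) * J) = (3 * κ + 1) * (b * J) := by ring
    rw [h5, h6, haJ, hbJ]
    ring
  have hYY : Y * Y = 3 * ((x + κ * b) * a + (y + κ * a) * b - 3 * (κ * (κ + 1) * J)) - Y := by
    have : Y * Y = (a * Y) * a + (b * Y) * b - Y - J * Y := by nth_rewrite 1 [hY]; ring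
    rw [this, haY, hbY, hJY]
    ring
  refine ⟨Y, _, (x + κ * b) * (y + κ * a) - Y * (κ * (κ + 1) * J), hY.symm, hYY, ?_⟩
  have h7 : 3 * κ * (Y * Y) = (a * Y) * (b * Y) - Y * (J * Y) := by
    have : (a * Y) * (b * Y) = (a * b) * (Y * Y) := by ring
    rw [this, hab]; ring
  rw [haY, hbY, hJY] at h7
  rw [← mul_assoc, h7]
  ring

variable {G : Type*} [AddCommGroup G]

namespace IsPDS

variable {n : ℕ} {D : Finset G}

lemma smul_injOn (h : IsPDS n D) {t : ℕ} (ht : Nat.Coprime t (n ^ 2 + n + 1)) :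
    Function.Injective (fun x : G => t • x) := by
  intro a b hab
  have h3 : t • (a - b) = 0 := by rw [smul_sub]; exact sub_eq_zero.2 hab
  exact sub_eq_zero.1 (h.smul_inj_of_coprime ht h3)

lemma smul_surjOn (h : IsPDS n D) {t : ℕ} (ht : Nat.Coprime t (n ^ 2 + n + 1))
    (hD : ∀ x ∈ D, t • x ∈ D) {y : G} (hy : y ∈ D) : ∃ x ∈ D, t • x = y := by
  have hsurj : Set.SurjOn (fun x : G => t • x) D D :=
    Finset.surjOn_of_injOn_of_card_le _ hD ((h.smul_injOn ht).injOn) le_rfl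
  obtain ⟨x, hx, hxy⟩ := hsurj hy
  exact ⟨x, hx, hxy⟩

lemma F_smul (h : IsPDS n D) {t : ℕ} (ht : Nat.Coprime t (n ^ 2 + n + 1))
    (hD : ∀ x ∈ D, t • x ∈ D) (k : ℤ) : F D (k * t) = F D k := by
  rw [F, F]
  apply Finset.sum_bij (fun x _ => t • x) hD (fun a ha b hb hab => h.smul_injOn ht hab)
  · intro b hb
    obtain ⟨x, hx, hxy⟩ := h.smul_surjOn ht hD hb
    exact ⟨x, hx, hxy⟩
  · intro a _
    rw [mul_smul, natCast_zsmul]

omit [AddCommGroup G] in
lemma cancel [AddCommGroup G] {k : ℤ} (hk : k ≠ 0) {x y : AddMonoidAlgebra ℤ G}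
    (hxy : (k : AddMonoidAlgebra ℤ G) * x = (k : AddMonoidAlgebra ℤ G) * y) : x = y := by
  apply ext_cf
  intro g
  have := congrArg (cf g) hxy
  rw [cf_zsmul, cf_zsmul] at this
  exact mul_left_cancel₀ hk this

/-- The group ring form of Wilbrink's theorem at the prime 3. -/
lemma wilbrink_ring [Fintype G] (h : IsPDS n D) (h0 : ∑ d ∈ D, d = 0) (hn : 0 < n) (h3 : 3 ∣ n)
    (h9 : ¬ 9 ∣ n) : ∃ P : AddMonoidAlgebra ℤ G, F D 1 ^ 2 + F D (-1) ^ 2 - 1 - J =
      ((3 : ℤ) : AddMonoidAlgebra ℤ G) * P := by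
  have hv : Fintype.card G = n ^ 2 + n + 1 := by rw [← Nat.card_eq_fintype_card, h.card_group]
  have hcop : Nat.Coprime 3 (n ^ 2 + n + 1) := Nat.Coprime.coprime_dvd_left h3 (coprime_card' n)
  have hD : ∀ x ∈ D, 3 • x ∈ D := fun x hx => h.prime_smul_mem h0 hn Nat.prime_three h3 hx
  have hab := h.mul_neg_self
  obtain ⟨x, hx⟩ := F_pow_prime Nat.prime_three D 1
  obtain ⟨y, hy⟩ := F_pow_prime Nat.prime_three D (-1)
  rw [h.F_smul hcop hD] at hx hy
  have haJ := F_mul_J D 1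
  have hbJ := F_mul_J D (-1)
  have hJJ := J_mul_J (G := G)
  rw [h.card] at haJ hbJ
  rw [hv] at hJJ
  obtain ⟨k, hk⟩ := h3
  have hk3 : ¬ 3 ∣ k := by
    rintro ⟨j, rfl⟩
    exact h9 ⟨j, by rw [hk]; ring⟩
  have hn' : (n : AddMonoidAlgebra ℤ G) = 3 * (k : AddMonoidAlgebra ℤ G) := by
    rw [hk]; push_cast; ring
  push_cast at hab haJ hbJ hJJ hx hy
  rw [hn'] at hab haJ hbJ hJJ
  obtain ⟨Y, W, V, h1, h2, h4⟩ := wil_alg _ _ _ _ _ _ hab haJ hbJ hJJ hx hy
  have h5 : (k : AddMonoidAlgebra ℤ G) * (Y * Y) = 3 * V := by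
    have : ((3 : ℤ) : AddMonoidAlgebra ℤ G) * ((k : AddMonoidAlgebra ℤ G) * (Y * Y)) =
      ((3 : ℤ) : AddMonoidAlgebra ℤ G) * (3 * V) := by push_cast; exact h4
    exact cancel (by norm_num) this
  have hco : IsCoprime (k : ℤ) 3 := by
    have : IsCoprime (k : ℤ) ((3 : ℕ) : ℤ) := by
      rw [Nat.isCoprime_iff_coprime]
      exact ((Nat.Prime.coprime_iff_not_dvd Nat.prime_three).2 hk3).symm
    simpa using this
  obtain ⟨u, w, huw⟩ := hco
  have huw' : (u : AddMonoidAlgebra ℤ G) * (k : AddMonoidAlgebra ℤ G) + (w : AddMonoidAlgebra ℤ G) * 3 = 1 := by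
    have := congrArg (fun t : ℤ => (t : AddMonoidAlgebra ℤ G)) huw
    push_cast at this
    exact this
  have hY3 : Y * Y = 3 * (u * V + w * (Y * Y)) := by
    calc Y * Y = (u * (k : AddMonoidAlgebra ℤ G) + w * 3) * (Y * Y) := by rw [huw']; ring
      _ = u * ((k : AddMonoidAlgebra ℤ G) * (Y * Y)) + 3 * (w * (Y * Y)) := by ring
      _ = _ := by rw [h5]; ring
  refine ⟨W - (u * V + w * (Y * Y)), ?_⟩
  rw [h1, mul_sub]
  push_cast
  rw [← hY3, h2]
  ring

lemma N_one_one_le [DecidableEq G] (h : IsPDS n D) (g : G) : N D 1 1 g ≤ 2 := by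
  by_contra hcon
  push Not at hcon
  obtain ⟨a, ha, b, hb, c, hc, hab, hac, hbc⟩ := (Finset.two_lt_card).1 hcon
  simp only [mem_filter, mem_product, one_smul] at ha hb hc
  have key : ∀ q q' : G × G, (q.1 ∈ D ∧ q.2 ∈ D) ∧ q.1 + q.2 = g → (q'.1 ∈ D ∧ q'.2 ∈ D) ∧ q'.1 + q'.2 = g →
      q ≠ q' → q' = (q.2, q.1) := by
    intro q q' hq hq' hne
    have h1 : q.1 - q'.1 = q'.2 - q.2 := by
      rw [sub_eq_sub_iff_add_eq_add, hq.2, ← hq'.2, add_comm]
    have h2 : q.1 ≠ q'.1 := by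
      intro h3
      apply hne
      have h4 : q.2 = q'.2 := by
        have := hq.2.trans hq'.2.symm
        rw [h3] at this
        exact add_left_cancel this
      exact Prod.ext h3 h4
    obtain ⟨h3, h4⟩ := h.uniq hq.1.1 hq'.1.1 hq'.1.2 hq.1.2 h1 h2
    exact Prod.ext h4 h3.symm
  have h1 := key a b ha hb hab
  have h2 := key a c ha hc hac
  exact hbc (h1.trans h2.symm)

lemma N_one_one_eq_one [DecidableEq G] (_h : IsPDS n D) {g : G} (hg : N D 1 1 g = 1) :
    ∃ x ∈ D, x + x = g := by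
  rw [N, Finset.card_eq_one] at hg
  obtain ⟨q, hq⟩ := hg
  have h1 : q ∈ {q ∈ D ×ˢ D | (1 : ℤ) • q.1 + (1 : ℤ) • q.2 = g} := by rw [hq]; simp
  simp only [mem_filter, mem_product, one_smul] at h1
  have h2 : (q.2, q.1) ∈ {q ∈ D ×ˢ D | (1 : ℤ) • q.1 + (1 : ℤ) • q.2 = g} := by
    simp only [mem_filter, mem_product, one_smul]
    exact ⟨⟨h1.1.2, h1.1.1⟩, by rw [add_comm]; exact h1.2⟩
  rw [hq, mem_singleton] at h2
  have h3 : q.1 = q.2 := by
    have := congrArg Prod.fst h2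
    exact this.symm
  exact ⟨q.1, h1.1.1, by nth_rewrite 2 [h3]; exact h1.2⟩

lemma N_neg_neg [DecidableEq G] (D : Finset G) (g : G) : N D (-1) (-1) g = N D 1 1 (-g) := by
  rw [N, N]
  congr 1
  apply Finset.filter_congr
  intro q _
  simp only [neg_smul, one_smul]
  constructor
  · intro h; rw [← h]; abel
  · intro h; rw [← neg_neg g, ← h]; abel

/-- **Wilbrink's theorem** at the prime 3. -/
lemma nine_dvd (h : IsPDS n D) (h0 : ∑ d ∈ D, d = 0) (hn : 5 ≤ n) (h3 : 3 ∣ n) : 9 ∣ n := by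
  classical
  by_contra h9
  have := h.finite
  have := Fintype.ofFinite G
  have hv : Fintype.card G = n ^ 2 + n + 1 := by rw [← Nat.card_eq_fintype_card, h.card_group]
  obtain ⟨P, hP⟩ := h.wilbrink_ring h0 (by omega) h3 h9
  have hmod : ∀ g : G, g ≠ 0 → (N D 1 1 g : ℤ) + N D 1 1 (-g) - 1 = 3 * cf g P := by
    intro g hg
    have h1 := congrArg (cf g) hP
    rw [map_sub, map_sub, map_add, pow_two, pow_two, cf_mul, cf_mul, cf_J, cf_zsmul, N_neg_neg,
      ← e_zero, cf_e, if_neg (Ne.symm hg)] at h1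
    linarith
  have hzero : ∀ g : G, g ≠ 0 → N D 1 1 g = 0 → N D 1 1 (-g) = 1 := by
    intro g hg hg0
    have h1 := hmod g hg
    have h2 := h.N_one_one_le (-g)
    rw [hg0] at h1
    push_cast at h1
    omega
  set z := #{g : G | N D 1 1 g = 0} with hz
  set w := #{g : G | N D 1 1 g = 1} with hw
  have hwn : w ≤ n + 1 := by
    rw [hw, ← h.card]
    calc _ ≤ #(D.image (fun x => x + x)) := by
          apply Finset.card_le_card
          intro g hg
          simp only [mem_filter, mem_univ, true_and] at hg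
          obtain ⟨x, hx, hxg⟩ := h.N_one_one_eq_one hg
          exact mem_image.2 ⟨x, hx, hxg⟩
      _ ≤ #D := Finset.card_image_le
  have hzw : z ≤ w + 1 := by
    have h1 : ({g : G | N D 1 1 g = 0} : Finset G) ⊆
        insert 0 (({g : G | N D 1 1 g = 1} : Finset G).image (fun g => -g)) := by
      intro g hg
      rw [Finset.mem_filter] at hg
      by_cases hg0 : g = 0
      · rw [hg0]; exact mem_insert_self _ _
      · apply mem_insert_of_mem
        apply mem_image.2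
        refine ⟨-g, ?_, neg_neg g⟩
        rw [Finset.mem_filter]
        exact ⟨mem_univ _, hzero g hg0 hg.2⟩
    have h2 := Finset.card_le_card h1
    have h3 := Finset.card_insert_le (0 : G) (({g : G | N D 1 1 g = 1} : Finset G).image (fun g => -g))
    have h4 := Finset.card_image_le (s := ({g : G | N D 1 1 g = 1} : Finset G)) (f := fun g => -g)
    rw [← hz] at h2
    rw [← hw] at h4
    omega
  have hsum : ∑ g : G, (N D 1 1 g + 2 * (if N D 1 1 g = 0 then 1 else 0) + (if N D 1 1 g = 1 then 1 else 0)) =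
      ∑ g : G, 2 := by
    apply Finset.sum_congr rfl
    intro g _
    have h2 := h.N_one_one_le g
    interval_cases hN : N D 1 1 g <;> simp
  rw [Finset.sum_add_distrib, Finset.sum_add_distrib, ← Finset.mul_sum, ← Finset.card_filter,
    ← Finset.card_filter, ← hz, ← hw] at hsum
  have h2 : ∑ g : G, N D 1 1 g = #(D ×ˢ D) := by
    symm
    exact Finset.card_eq_sum_card_fiberwise (fun _ _ => Finset.mem_coe.2 (Finset.mem_univ _))
  rw [h2, Finset.card_product, h.card] at hsum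
  simp only [sum_const, card_univ, smul_eq_mul] at hsum
  rw [hv] at hsum
  nlinarith

/-- Parity of the number of solutions of `x - 2 y = g` for odd order. -/
lemma parity [DecidableEq G] (h : IsPDS n D) (hodd : Odd n) (g : G) (hg : N D 1 (-2) g = 1) :
    - g ∈ D := by
  have := h.finite
  have := Fintype.ofFinite G
  obtain ⟨z, hz⟩ := F_pow_prime Nat.prime_two D (-1)
  obtain ⟨k, hk⟩ := hodd
  have h1 : F D 1 * F D (-2) = ((n : ℤ) : AddMonoidAlgebra ℤ G) * F D (-1) +
      (((n : ℤ) + 1 : ℤ) : AddMonoidAlgebra ℤ G) * J - ((2 : ℤ) : AddMonoidAlgebra ℤ G) * (z * F D 1) := by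
    have h2 : F D (-2) = F D (-1) ^ 2 - ((2 : ℤ) : AddMonoidAlgebra ℤ G) * z := by
      rw [hz]
      norm_num
    have h3 : F D 1 * F D (-1) ^ 2 = (F D 1 * F D (-1)) * F D (-1) := by ring
    rw [h2, mul_sub, h3, h.mul_neg_self, add_mul, mul_comm J, F_mul_J, h.card]
    push_cast
    ring
  have h4 := congrArg (cf g) h1
  rw [cf_mul, hg, map_sub, map_add, cf_zsmul, cf_zsmul, cf_zsmul, cf_J, cf_F] at h4
  by_contra hcon
  have h5 : #{d ∈ D | (-1 : ℤ) • d = g} = 0 := by
    rw [Finset.card_eq_zero, Finset.filter_eq_empty_iff]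
    intro d hd hdg
    apply hcon
    rw [← hdg]
    simpa using hd
  rw [h5, hk] at h4
  push_cast at h4
  omega

/-- **No relation `t = s + 2 u`** among multipliers when `n` is odd and `0 ∉ D`. -/
lemma no_two_rel (h : IsPDS n D) (hodd : Odd n) (hn : 3 ≤ n) (h0 : (0 : G) ∉ D) {s t : ℕ}
    (hs : ∀ x ∈ D, s • x ∈ D) (ht : ∀ x ∈ D, t • x ∈ D) (hcop : Nat.Coprime s (n ^ 2 + n + 1))
    (hst : t = s + 2) : False := by
  classical
  have hcop2 : Nat.Coprime 2 (n ^ 2 + n + 1) := by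
    rw [Nat.coprime_two_left]
    obtain ⟨k, rfl⟩ := hodd
    exact ⟨2 * k ^ 2 + 3 * k + 1, by ring⟩
  have hneg : ∀ g ∈ D, - g ∈ D := by
    intro g hg
    apply h.parity hodd
    obtain ⟨y₀, hy₀, hsy⟩ := h.smul_surjOn hcop hs hg
    rw [N, Finset.card_eq_one]
    refine ⟨(t • y₀, y₀), ?_⟩
    ext ⟨x, y⟩
    simp only [mem_filter, mem_product, one_smul, mem_singleton, Prod.mk.injEq]
    have hts : ∀ y : G, t • y - s • y = 2 • y := by
      intro y; rw [hst, add_smul]; abel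
    constructor
    · rintro ⟨⟨hx, hy⟩, hxy⟩
      have hy0 : 2 • y ≠ 0 := by
        intro h2
        exact h0 (by rw [h.smul_inj_of_coprime hcop2 h2] at hy; exact hy)
      have h1 : x - g = 2 • y := by
        rw [← hxy]
        have : (-2 : ℤ) • y = - (2 • y) := by rw [neg_smul]; norm_cast
        rw [this]; abel
      have h2 : t • y ≠ s • y := by
        intro h3; apply hy0; rw [← hts, h3, sub_self]
      have h3 := h.uniq (ht y hy) (hs y hy) hx hg (by rw [hts, h1]) h2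
      have h4 : y = y₀ := h.smul_injOn hcop (h3.2.trans hsy.symm)
      exact ⟨by rw [← h3.1, h4], h4⟩
    · rintro ⟨rfl, rfl⟩
      refine ⟨⟨ht _ hy₀, hy₀⟩, ?_⟩
      have : (-2 : ℤ) • y = - (2 • y) := by rw [neg_smul]; norm_cast
      rw [this, ← hsy, hst, add_smul]
      abel
  -- `D = -D` is impossible
  have hc : 1 < #D := by rw [h.card]; omega
  obtain ⟨x, hx⟩ : ∃ x, x ∈ D := Finset.card_pos.1 (by omega)
  have h2 : (({x, -x} : Finset G)) ⊂ D := by
    rw [Finset.ssubset_iff_subset_ne]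
    constructor
    · intro y hy
      simp only [mem_insert, mem_singleton] at hy
      rcases hy with rfl | rfl
      · exact hx
      · exact hneg x hx
    · intro heq
      have : #D ≤ 2 := by rw [← heq]; exact Finset.card_le_two
      rw [h.card] at this
      omega
  obtain ⟨y, hy, hyx⟩ := Finset.exists_of_ssubset h2
  simp only [mem_insert, mem_singleton, not_or] at hyx
  have h3 := h.uniq hx hy (hneg y hy) (hneg x hx) (by abel) (Ne.symm hyx.1)
  apply hyx.2
  rw [h3.1, neg_neg]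

end IsPDS

end Pool.Agent.H152R2
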