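import Pool.Agent.H152R2.PlanarRel

/-!
Planar abelian difference sets: the only relations `t = s + 2 u` between numerical multipliers
composed of prime divisors of the order are the trivial ones.
-/

namespace Pool.Agent.H152R2

open Finset

variable {G : Type*} [AddCommGroup G]

namespace IsPDS

variable {n : ℕ} {D : Finset G}

lemma coprime_two (hodd : Odd n) : Nat.Coprime 2 (n ^ 2 + n + 1) := by
  rw [Nat.coprime_two_left]
  obtain ⟨k, rfl⟩ := hodd
  exact ⟨2 * k ^ 2 + 3 * k + 1, by ring⟩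

/-- `D = -D` is impossible for `n ≥ 3`. -/
lemma not_symm (h : IsPDS n D) (hn : 3 ≤ n) (hneg : ∀ g ∈ D, - g ∈ D) : False := by
  classical
  have hc : 1 < #D := by rw [h.card]; omega
  obtain ⟨x, hx⟩ : ∃ x, x ∈ D := Finset.card_pos.1 (by omega)
  have h2 : (({x, -x} : Finset G)) ⊂ D := by
    rw [Finset.ssubset_iff_subset_ne]
    constructor
    · intro y hy
      simp only [mem_insert, mem_singleton] at hy
      rcases hy with rfl | rfl
      · exact hx
      · exact hneg x hx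
    · intro heq
      have : #D ≤ 2 := by rw [← heq]; exact Finset.card_le_two
      rw [h.card] at this
      omega
  obtain ⟨y, hy, hyx⟩ := Finset.exists_of_ssubset h2
  simp only [mem_insert, mem_singleton, not_or] at hyx
  have h3 := h.uniq hx hy (hneg y hy) (hneg x hx) (by abel) (Ne.symm hyx.1)
  apply hyx.2
  rw [h3.1, neg_neg]

/-- **No relation `t = s + 2 u`** among multipliers when `n` is odd and `0 ∉ D`. -/
lemma no_rel (h : IsPDS n D) (hodd : Odd n) (hn : 3 ≤ n) (h0 : (0 : G) ∉ D) {s t u : ℕ}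
    (hs : ∀ x ∈ D, s • x ∈ D) (ht : ∀ x ∈ D, t • x ∈ D) (hu : ∀ x ∈ D, u • x ∈ D)
    (hcs : Nat.Coprime s (n ^ 2 + n + 1)) (hcu : Nat.Coprime u (n ^ 2 + n + 1))
    (hrel : ∀ g : G, t • g = s • g + (2 * u) • g) : False := by
  classical
  apply h.not_symm hn
  intro g hg
  apply h.parity hodd
  obtain ⟨y₀, hy₀, hsy⟩ := h.smul_surjOn hcs hs hg
  have h2 : ∀ y : G, (-2 : ℤ) • y = - (2 • y) := by intro y; rw [neg_smul]; norm_cast
  rw [N, Finset.card_eq_one]
  refine ⟨(t • y₀, u • y₀), ?_⟩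
  ext ⟨x, y⟩
  simp only [mem_filter, mem_product, one_smul, mem_singleton, Prod.mk.injEq]
  constructor
  · rintro ⟨⟨hx, hy⟩, hxy⟩
    obtain ⟨y', hy', huy⟩ := h.smul_surjOn hcu hu hy
    have hy0 : y' ≠ 0 := by rintro rfl; exact h0 hy'
    have h3 : x - g = (2 * u) • y' := by
      rw [← hxy, h2, mul_smul, huy]; abel
    have h4 : (2 * u) • y' ≠ 0 := by
      intro h5
      exact hy0 (h.smul_inj_of_coprime (Nat.Coprime.mul_left (coprime_two hodd) hcu) h5)
    have h5 : t • y' - s • y' = (2 * u) • y' := by rw [hrel]; abel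
    have h6 : t • y' ≠ s • y' := by
      intro h7; apply h4; rw [← h5, h7, sub_self]
    have h7 := h.uniq (ht y' hy') (hs y' hy') hx hg (by rw [h5, h3]) h6
    have h8 : y' = y₀ := h.smul_injOn hcs (h7.2.trans hsy.symm)
    exact ⟨by rw [← h7.1, h8], by rw [← huy, h8]⟩
  · rintro ⟨rfl, rfl⟩
    refine ⟨⟨ht _ hy₀, hu _ hy₀⟩, ?_⟩
    rw [h2, ← hsy, hrel, ← mul_smul]
    abel

/-- If `D ∖ 0` is mapped to itself by `n`, `0 ∈ D` and `3 ∤ n`, then `D` contains a non-zero element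
fixed by `n`. -/
lemma exists_fixed (h : IsPDS n D) (hn : ¬ 3 ∣ n) (h0 : (0 : G) ∈ D)
    (hs : ∀ x ∈ D, n • x ∈ D) : ∃ x ∈ D, x ≠ 0 ∧ n • x = x := by
  classical
  have hn0 : 0 < n := Nat.pos_of_ne_zero (by rintro rfl; exact hn (dvd_zero _))
  have hcube : ∀ x : G, n • n • n • x = x := by
    intro x
    have h1 : (n ^ 2 + n + 1) • x = 0 := by
      rw [← h.card_group]
      exact card_nsmul_eq_zero'
    have h2 : n * n * n = (n - 1) * (n ^ 2 + n + 1) + 1 := by
      obtain ⟨k, rfl⟩ : ∃ k, n = k + 1 := ⟨n - 1, by omega⟩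
      simp only [Nat.add_sub_cancel]
      ring
    rw [← mul_smul, ← mul_smul, h2, add_smul, mul_smul, h1, smul_zero, zero_add, one_smul]
  have hmem : ∀ x ∈ D.erase 0, n • x ∈ D.erase 0 := by
    intro x hx
    rw [Finset.mem_erase] at hx ⊢
    refine ⟨fun h1 => hx.1 ?_, hs x hx.2⟩
    rw [← hcube x, h1, smul_zero, smul_zero]
  let f : {x // x ∈ D.erase 0} → {x // x ∈ D.erase 0} := fun x => ⟨n • x.1, hmem x.1 x.2⟩
  have hf3 : ∀ x, f (f (f x)) = x := fun x => Subtype.ext (hcube x.1)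
  let σ : Equiv.Perm {x // x ∈ D.erase 0} := ⟨f, fun x => f (f x), fun x => hf3 x, fun x => hf3 x⟩
  have hσ : σ ^ 3 ^ 1 = 1 := by
    ext x
    have : (σ ^ 3 ^ 1) x = σ (σ (σ x)) := rfl
    rw [this]
    exact congrArg Subtype.val (hf3 x)
  have hcard : Fintype.card {x // x ∈ D.erase 0} = n := by
    rw [Fintype.card_coe, Finset.card_erase_of_mem h0, h.card, Nat.add_sub_cancel]
  have : Fact (Nat.Prime 3) := ⟨Nat.prime_three⟩
  obtain ⟨a, ha⟩ := Equiv.Perm.exists_fixed_point_of_prime (p := 3) (n := 1)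
    (by rw [hcard]; exact hn) hσ
  have h1 : n • a.1 = a.1 := congrArg Subtype.val ha
  exact ⟨a.1, (Finset.mem_erase.1 a.2).2, (Finset.mem_erase.1 a.2).1, h1⟩

/-- An element fixed by `n` is killed by `3`. -/
lemma three_smul_of_fixed (h : IsPDS n D) {x : G} (hx : n • x = x) : 3 • x = 0 := by
  have h1 : (n ^ 2 + n + 1) • x = 0 := by
    rw [← h.card_group]
    exact card_nsmul_eq_zero'
  have h2 : n ^ 2 • x = x := by rw [pow_two, mul_smul, hx, hx]
  rw [add_smul, add_smul, h2, hx, one_smul] at h1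
  rw [← h1]
  abel

/-- The order is not congruent to `2` modulo `3` when `0 ∈ D`. -/
lemma mod_three_ne_two (h : IsPDS n D) (h0 : (0 : G) ∈ D) (hs : ∀ x ∈ D, n • x ∈ D) :
    n % 3 ≠ 2 := by
  intro hn
  obtain ⟨x, _, hx0, hfix⟩ := h.exists_fixed (by omega) h0 hs
  have h3 := h.three_smul_of_fixed hfix
  apply hx0
  have h4 : Nat.Coprime 3 (n ^ 2 + n + 1) := by
    rw [Nat.Prime.coprime_iff_not_dvd Nat.prime_three]
    obtain ⟨k, hk⟩ : ∃ k, n = 3 * k + 2 := ⟨n / 3, by omega⟩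
    have : n ^ 2 + n + 1 = 3 * (3 * k ^ 2 + 5 * k + 2) + 1 := by rw [hk]; ring
    omega
  exact h.smul_inj_of_coprime h4 h3

/-- If `0 ∈ D` and `n ≡ 1 mod 3`, the relation `t = s + 2 u` is impossible. -/
lemma no_rel_mod_one (h : IsPDS n D) (hn : ¬ 3 ∣ n) (h0 : (0 : G) ∈ D) {s t u : ℕ}
    (hnD : ∀ x ∈ D, n • x ∈ D)
    (hs : ∀ x ∈ D, s • x ∈ D) (ht : ∀ x ∈ D, t • x ∈ D) (hu : ∀ x ∈ D, u • x ∈ D)
    (hcs : Nat.Coprime s (n ^ 2 + n + 1)) (hct : Nat.Coprime t (n ^ 2 + n + 1))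
    (hcu : Nat.Coprime u (n ^ 2 + n + 1))
    (hrel : ∀ g : G, t • g = s • g + (2 * u) • g) : False := by
  obtain ⟨x, hx, hx0, hfix⟩ := h.exists_fixed hn h0 hnD
  have h3 := h.three_smul_of_fixed hfix
  have hx2 : 2 • x ∉ D := by
    intro h4
    have h5 : x - 0 = 0 - 2 • x := by
      rw [sub_zero, zero_sub, eq_neg_iff_add_eq_zero, ← h3]; abel
    exact hx0 (h.uniq hx h0 h0 h4 h5 hx0).1
  have key : ∀ m : ℕ, (∀ x ∈ D, m • x ∈ D) → Nat.Coprime m (n ^ 2 + n + 1) → m • x = x := by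
    intro m hm hcm
    have h4 : m • x ≠ 0 := fun h5 => hx0 (h.smul_inj_of_coprime hcm h5)
    have h5 : m • x = (m % 3) • x := by
      conv_lhs => rw [← Nat.div_add_mod m 3, add_smul, mul_comm 3, mul_smul, h3, smul_zero, zero_add]
    have h6 : m % 3 < 3 := Nat.mod_lt _ (by norm_num)
    have h7 := hm x hx
    interval_cases hk : m % 3
    · rw [h5, zero_smul] at h4; exact absurd rfl h4
    · rw [h5, one_smul]
    · rw [h5] at h7; exact absurd h7 hx2
  have h4 := hrel x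
  rw [key t ht hct, key s hs hcs, mul_smul, key u hu hcu] at h4
  apply hx0
  have h5 : 2 • x = 0 := by
    have := sub_eq_zero.2 h4
    have h6 : x - (x + 2 • x) = - (2 • x) := by abel
    rw [h6, neg_eq_zero] at this
    exact this
  have h6 : 3 • x = 2 • x + x := by abel
  rw [h5, zero_add] at h6
  rw [← h6, h3]

/-- The multiplier relation theorem for a normalised planar difference set. -/
theorem rel (h : IsPDS n D) (h0 : ∑ d ∈ D, d = 0) (hn : 2 ≤ n) {s t u : ℕ}
    (hs0 : s ≠ 0) (ht0 : t ≠ 0) (hu0 : u ≠ 0)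
    (hsn : ∀ r, r.Prime → r ∣ s → r ∣ n) (htn : ∀ r, r.Prime → r ∣ t → r ∣ n)
    (hun : ∀ r, r.Prime → r ∣ u → r ∣ n)
    (hrel : ∀ g : G, t • g = s • g + (2 * u) • g) :
    (2 ∣ n ∧ ∀ g : G, s • g = (2 * u) • g ∧ t • g = (4 * u) • g) ∨
    (¬ 2 ∣ n ∧ 3 ∣ n ∧ ∀ g : G, s • g = u • g ∧ t • g = (3 * u) • g) := by
  have hcop : ∀ m : ℕ, m ≠ 0 → (∀ r, r.Prime → r ∣ m → r ∣ n) → Nat.Coprime m (n ^ 2 + n + 1) := by
    intro m _ hmn
    apply Nat.Coprime.symm
    rw [Nat.coprime_comm]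
    apply Nat.coprime_of_dvd
    intro k hk hkm hkv
    have h1 := hmn k hk hkm
    have h2 : k ∣ 1 := by
      rw [← Nat.coprime_iff_gcd_eq_one.1 (coprime_card' n)]
      exact Nat.dvd_gcd h1 hkv
    exact hk.one_lt.ne' (Nat.dvd_one.1 h2)
  have hs : ∀ x ∈ D, s • x ∈ D := fun x hx => h.smul_mem h0 (by omega) hs0 hsn hx
  have ht : ∀ x ∈ D, t • x ∈ D := fun x hx => h.smul_mem h0 (by omega) ht0 htn hx
  have hu : ∀ x ∈ D, u • x ∈ D := fun x hx => h.smul_mem h0 (by omega) hu0 hun hx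
  have hnD : ∀ x ∈ D, n • x ∈ D := fun x hx => h.smul_mem h0 (by omega) (by omega) (fun r _ hr => hr) hx
  have ext : ∀ a b : ℕ, (∀ x ∈ D, a • x = b • x) → ∀ g : G, a • g = b • g := by
    intro a b hab g
    by_cases hg : g = 0
    · rw [hg, smul_zero, smul_zero]
    · obtain ⟨q, ⟨h1, h2, hq⟩, _⟩ := h.diff g hg
      rw [← hq, smul_sub, smul_sub, hab _ h1, hab _ h2]
  -- the argument from a second relation `c - d = 2`
  have two : ∀ c d : ℕ, c = d + 2 → (∀ x ∈ D, c • x ∈ D) → (∀ x ∈ D, d • x ∈ D) →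
      Nat.Coprime c (n ^ 2 + n + 1) → Nat.Coprime d (n ^ 2 + n + 1) → 
      ∀ x ∈ D, s • x = (d * u) • x ∧ t • x = (c * u) • x := by
    intro c d hcd hc hd hcc hcd' x hx
    by_cases hx0 : x = 0
    · subst hx0; simp
    · have h1 : t • x - s • x = (2 * u) • x := by rw [hrel]; abel
      have h2 : (c * u) • x - (d * u) • x = (2 * u) • x := by
        rw [hcd, add_mul, add_smul]; abel
      by_cases h3 : t • x = s • x
      · exfalso
        have h4 : (2 * u) • x = 0 := by rw [← h1, h3, sub_self]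
        rw [mul_comm, mul_smul] at h4
        have h5 : 2 • x = 0 := h.smul_inj_of_coprime (hcop u hu0 hun) h4
        -- `2 x = 0` and `x ≠ 0` contradict oddness of the group order
        have h6 : (n ^ 2 + n + 1) • x = 0 := by
          rw [← h.card_group]; exact card_nsmul_eq_zero'
        have h7 : (n ^ 2 + n + 1) % 2 = 1 := by
          have : (n ^ 2 + n) % 2 = 0 := by
            rw [pow_two, ← Nat.mul_succ]
            exact Nat.even_iff.1 (Nat.even_mul_succ_self n)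
          omega
        have h8 : (n ^ 2 + n + 1) = 2 * ((n ^ 2 + n + 1) / 2) + 1 := by omega
        rw [h8, add_smul, mul_comm, mul_smul, h5, smul_zero, zero_add, one_smul] at h6
        exact hx0 h6
      · have h4 := h.uniq (ht x hx) (hs x hx) (by rw [mul_smul]; exact hc _ (hu x hx))
          (by rw [mul_smul]; exact hd _ (hu x hx)) (h1.trans h2.symm) h3
        exact ⟨h4.2, h4.1⟩
  by_cases h2 : 2 ∣ n
  · left
    refine ⟨h2, ?_⟩
    have h2D : ∀ x ∈ D, 2 • x ∈ D := fun x hx => h.prime_smul_mem h0 (by omega) Nat.prime_two h2 hx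
    have h4D : ∀ x ∈ D, 4 • x ∈ D := by
      intro x hx
      have : (4 : ℕ) • x = 2 • 2 • x := by rw [← mul_smul]; norm_num
      rw [this]
      exact h2D _ (h2D _ hx)
    have hc2 : Nat.Coprime 2 (n ^ 2 + n + 1) := Nat.Coprime.coprime_dvd_left h2 (coprime_card' n)
    have hc4 : Nat.Coprime 4 (n ^ 2 + n + 1) := by
      have := Nat.Coprime.mul_left hc2 hc2
      simpa using this
    have key := two 4 2 rfl h4D h2D hc4 hc2
    intro g
    exact ⟨ext _ _ (fun x hx => (key x hx).1) g, ext _ _ (fun x hx => (key x hx).2) g⟩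
  · have hodd : Odd n := Nat.not_even_iff_odd.1 (fun h => h2 h.two_dvd)
    by_cases h3 : 3 ∣ n
    · right
      refine ⟨h2, h3, ?_⟩
      have h3D : ∀ x ∈ D, 3 • x ∈ D := fun x hx => h.prime_smul_mem h0 (by omega) Nat.prime_three h3 hx
      have hc3 : Nat.Coprime 3 (n ^ 2 + n + 1) := Nat.Coprime.coprime_dvd_left h3 (coprime_card' n)
      have key := two 3 1 rfl h3D (fun x hx => by rw [one_smul]; exact hx) hc3 (Nat.coprime_one_left _)
      intro g
      refine ⟨?_, ext _ _ (fun x hx => (key x hx).2) g⟩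
      have := ext _ _ (fun x hx => (key x hx).1) g
      rw [one_mul] at this
      exact this
    · exfalso
      have hn3 : 3 ≤ n := by
        obtain ⟨k, hk⟩ := hodd
        omega
      by_cases hz : (0 : G) ∈ D
      · exact h.no_rel_mod_one h3 hz hnD hs ht hu (hcop s hs0 hsn) (hcop t ht0 htn)
          (hcop u hu0 hun) hrel
      · exact h.no_rel hodd hn3 hz hs ht hu (hcop s hs0 hsn) (hcop u hu0 hun) hrel

end IsPDS

end Pool.Agent.H152R2
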