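import Mathlib

/-!
Integral group ring of a finite abelian group, basic counting interface.
-/

namespace Pool.Agent.H152R2

open Finset

variable {G : Type*} [AddCommGroup G]

/-- the basis element of the group ring attached to `g` -/
noncomputable def e (g : G) : AddMonoidAlgebra ℤ G := AddMonoidAlgebra.single g 1

/-- the coefficient at `g` -/
noncomputable def cf (g : G) : AddMonoidAlgebra ℤ G →+ ℤ where
  toFun x := x.coeff g
  map_zero' := rfl
  map_add' _ _ := rfl

lemma cf_e [DecidableEq G] (g h : G) : cf g (e h) = if h = g then 1 else 0 := by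
  change (AddMonoidAlgebra.single h (1 : ℤ)).coeff g = _
  rw [AddMonoidAlgebra.coeff_single, Finsupp.single_apply]

lemma e_mul (g h : G) : e g * e h = e (g + h) := by
  simp [e, AddMonoidAlgebra.single_mul_single]

lemma e_zero : e (0 : G) = 1 := rfl

lemma e_pow (g : G) (k : ℕ) : e g ^ k = e (k • g) := by
  simp [e, AddMonoidAlgebra.single_pow]

omit [AddCommGroup G] in
lemma ext_cf [AddCommGroup G] {x y : AddMonoidAlgebra ℤ G} (h : ∀ g, cf g x = cf g y) : x = y := by
  apply AddMonoidAlgebra.ext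
  ext g
  exact h g

lemma cf_zsmul (g : G) (k : ℤ) (x : AddMonoidAlgebra ℤ G) : cf g ((k : AddMonoidAlgebra ℤ G) * x) = k * cf g x := by
  have : (k : AddMonoidAlgebra ℤ G) * x = k • x := by
    rw [zsmul_eq_mul]
  rw [this, map_zsmul]
  simp

/-- The sum of the `k`-fold multiples of the elements of `D`. -/
noncomputable def F (D : Finset G) (k : ℤ) : AddMonoidAlgebra ℤ G := ∑ d ∈ D, e (k • d)

/-- Number of representations `g = a x + b y` with `x, y ∈ D`. -/
def N [DecidableEq G] (D : Finset G) (a b : ℤ) (g : G) : ℕ :=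
  #{q ∈ D ×ˢ D | a • q.1 + b • q.2 = g}

lemma cf_mul [DecidableEq G] (D : Finset G) (a b : ℤ) (g : G) :
    cf g (F D a * F D b) = N D a b g := by
  rw [F, F, Finset.sum_mul_sum, ← Finset.sum_product', map_sum, N, Finset.card_filter]
  push_cast
  apply Finset.sum_congr rfl
  intro q _
  rw [e_mul, cf_e]

/-- the sum of all group elements -/
noncomputable def J [Fintype G] : AddMonoidAlgebra ℤ G := ∑ g : G, e g

lemma cf_J [Fintype G] (g : G) : cf g (J : AddMonoidAlgebra ℤ G) = 1 := by
  classical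
  rw [J, map_sum]
  simp [cf_e]

lemma e_mul_J [Fintype G] (g : G) : e g * J = (J : AddMonoidAlgebra ℤ G) := by
  rw [J, Finset.mul_sum]
  simp_rw [e_mul]
  exact Fintype.sum_equiv (Equiv.addLeft g) _ _ (fun x => rfl)

lemma F_mul_J [Fintype G] (D : Finset G) (k : ℤ) :
    F D k * J = ((#D : ℤ) : AddMonoidAlgebra ℤ G) * J := by
  rw [F, Finset.sum_mul]
  simp_rw [e_mul_J]
  simp

lemma J_mul_J [Fintype G] :
    (J : AddMonoidAlgebra ℤ G) * J = ((Fintype.card G : ℤ) : AddMonoidAlgebra ℤ G) * J := by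
  nth_rewrite 1 [J]
  rw [Finset.sum_mul]
  simp_rw [e_mul_J]
  simp [Finset.card_univ]

/-- Frobenius modulo a prime. -/
lemma sum_pow_prime {R ι : Type*} [CommRing R] {p : ℕ} (hp : p.Prime) (s : Finset ι) (f : ι → R) :
    ∃ z, (∑ i ∈ s, f i) ^ p = ∑ i ∈ s, f i ^ p + (p : R) * z := by
  classical
  induction s using Finset.induction_on with
  | empty => exact ⟨0, by simp [hp.ne_zero]⟩
  | insert a s ha ih =>
    obtain ⟨z, hz⟩ := ih
    obtain ⟨r, hr⟩ := exists_add_pow_prime_eq hp (f a) (∑ i ∈ s, f i)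
    refine ⟨z + f a * (∑ i ∈ s, f i) * r, ?_⟩
    rw [Finset.sum_insert ha, Finset.sum_insert ha, hr, hz]
    ring

lemma F_pow_prime {p : ℕ} (hp : p.Prime) (D : Finset G) (k : ℤ) :
    ∃ z, F D k ^ p = F D (k * p) + (((p : ℤ) : AddMonoidAlgebra ℤ G)) * z := by
  obtain ⟨z, hz⟩ := sum_pow_prime hp D (fun d => e (k • d))
  refine ⟨z, ?_⟩
  rw [F, hz, F]
  congr 1
  · apply Finset.sum_congr rfl
    intro d _
    rw [e_pow, mul_comm, mul_smul, natCast_zsmul]

end Pool.Agent.H152R2
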